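import Mathlib
import Pool.Agent.Helper75.MNA.Canon
import Pool.Agent.Helper75.MNA.Trans3

set_option autoImplicit false

namespace Pool.Agent.Results.MP_e6f1c2_al.Canonical

open Pool.Agent.Helper75.MNA.Lite

/-- Sanity check: the class `A` is a formation. -/
theorem aClass_isFormation : IsFormation AClass :=
  (Pool.Agent.Helper75.MNA.Trans.isFormation_iff _).2 Pool.Agent.Helper75.MNA.AClass_isFormation

/-- Sanity check: `form G` is a formation that contains `G`, and it is contained in every
formation that contains `G`. -/
theorem form_smallest (G : Type) [Group G] [Finite G] :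
    IsFormation (form G) ∧ form G G ∧
      ∀ F : GroupClass, IsFormation F → F G → ∀ (H : Type) [Group H], form G H → F H := by
  refine ⟨?_, fun _ _ hG => hG, fun _ hF hG _ _ hH => hH _ hF hG⟩
  rw [Pool.Agent.Helper75.MNA.Trans.form_eq]
  exact (Pool.Agent.Helper75.MNA.Trans.isFormation_iff _).2
    (Pool.Agent.Helper75.MNA.form_isFormation G)

/-- Sanity check: there are canonical pairings for every prime `p` (the multiplication of the
integers modulo `p`, with trivial `H`). -/
theorem exists_canonical (p : ℕ) (hp : p.Prime) : ∃ D : Pairing, D.IsCanonical p :=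
  Pool.Agent.Helper75.MNA.Trans.exists_canonical p hp

/-- The minimal non-A-formations of finite groups are the formations generated by the groups of
the three families, and each of them is obtained exactly once up to isomorphism of the generating
data. -/
theorem result :
    (∀ F : GroupClass, IsMinimalNonA F ↔
      (∃ (G : Type) (_ : Group G), IsPrimitiveType G ∧ F = form G) ∨
      (∃ (p : ℕ) (D : Pairing), D.IsCanonical p ∧ F = form D.Grp) ∨
      (∃ (p : ℕ) (D : CrossedMod), D.IsCanonical p ∧ F = form D.Grp)) ∧
    (∀ (G K : Type) [Group G] [Group K], IsPrimitiveType G → IsPrimitiveType K →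
      (form G = form K ↔ Nonempty (G ≃* K))) ∧
    (∀ (p q : ℕ) (D D' : Pairing), D.IsCanonical p → D'.IsCanonical q →
      (form D.Grp = form D'.Grp ↔ D.Iso D')) ∧
    (∀ (p q : ℕ) (D D' : CrossedMod), D.IsCanonical p → D'.IsCanonical q →
      (form D.Grp = form D'.Grp ↔ D.Iso D')) ∧
    (∀ (G : Type) [Group G] (p q : ℕ) (D : Pairing) (D' : CrossedMod), IsPrimitiveType G →
      D.IsCanonical p → D'.IsCanonical q →
      form G ≠ form D.Grp ∧ form G ≠ form D'.Grp ∧ form D.Grp ≠ form D'.Grp) :=
  ⟨Pool.Agent.Helper75.MNA.Trans.canon1,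
    fun G K _ _ hG hK => Pool.Agent.Helper75.MNA.Trans.canon2 G K hG hK,
    Pool.Agent.Helper75.MNA.Trans.canon3, Pool.Agent.Helper75.MNA.Trans.canon4,
    fun G _ p q D D' hG hD hD' => Pool.Agent.Helper75.MNA.Trans.canon5 G p q D D' hG hD hD'⟩

end Pool.Agent.Results.MP_e6f1c2_al.Canonical
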